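import Pool.Agent.helper84.ZD.SpecA

/-!
# Project zd, module IBZ: decay in u of the integral of w y * y^(-iu)
-/

set_option autoImplicit false

open Complex MeasureTheory

namespace Pool.Agent.ZD

lemma IBZ_norm (r : ℝ) : ‖Complex.exp (-((r : ℂ) * I))‖ = 1 := by
  have h : -((r : ℂ) * I) = ((-r : ℝ) : ℂ) * I := by push_cast; ring
  rw [h, Complex.norm_exp_ofReal_mul_I]

lemma IBZ_meas (u : ℝ) :
    Measurable (fun y : ℝ => Complex.exp (-(((u * Real.log y : ℝ) : ℂ) * I))) := by
  have h1 : Measurable (fun y : ℝ => u * Real.log y) := Real.measurable_log.const_mul u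
  have h2 : Measurable (fun y : ℝ => (((u * Real.log y : ℝ)) : ℂ)) :=
    Complex.measurable_ofReal.comp h1
  exact Complex.measurable_exp.comp ((h2.mul_const I).neg)

lemma IBZ_int (w : ℝ → ℂ) (hw : Integrable w) (u : ℝ) :
    Integrable (fun y : ℝ => w y * Complex.exp (-(((u * Real.log y : ℝ) : ℂ) * I))) := by
  refine hw.mono (hw.aestronglyMeasurable.mul (IBZ_meas u).aestronglyMeasurable) ?_
  refine Filter.Eventually.of_forall (fun y => ?_)
  show ‖w y * Complex.exp (-(((u * Real.log y : ℝ) : ℂ) * I))‖ ≤ ‖w y‖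
  rw [norm_mul, IBZ_norm, mul_one]

lemma IBZ_step (h : SBO_stmt) (w : ℝ → ℂ) (hw : SB w) (u : ℝ) :
    ‖∫ y : ℝ, w y * Complex.exp (-(((u * Real.log y : ℝ) : ℂ) * I))‖ * |u|
      = ‖∫ y : ℝ, deriv (fun x : ℝ => (x : ℂ) * w x) y *
          Complex.exp (-(((u * Real.log y : ℝ) : ℂ) * I))‖ := by
  obtain ⟨-, hx, -, hiw, -⟩ := h w hw
  obtain ⟨hv, -, -, hix, -⟩ := h _ hx
  obtain ⟨-, -, -, hiv, -⟩ := h _ hv
  set e : ℝ → ℂ := fun y => Complex.exp (-(((u * Real.log y : ℝ) : ℂ) * I)) with he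
  set v : ℝ → ℂ := deriv (fun x : ℝ => (x : ℂ) * w x) with hvdef
  have hder : ∀ y : ℝ, HasDerivAt (fun y : ℝ => ((y : ℂ) * w y) * e y)
      (v y * e y - (I * u) * (w y * e y)) y := by
    intro y
    by_cases hy : y < 1 / 2
    · have h1 : (fun y : ℝ => ((y : ℂ) * w y) * e y) =ᶠ[nhds y] fun _ => (0 : ℂ) := by
        filter_upwards [Iio_mem_nhds hy] with z hz
        rw [hw.2 z (Or.inl hz)]
        simp
      have h2 : v y * e y - (I * u) * (w y * e y) = 0 := by
        rw [hv.2 y (Or.inl hy), hw.2 y (Or.inl hy)]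
        simp
      rw [h2]
      exact (hasDerivAt_const y (0 : ℂ)).congr_of_eventuallyEq h1
    · have hy0 : y ≠ 0 := by
        intro h0
        rw [h0] at hy
        norm_num at hy
      have h1 : HasDerivAt (fun x : ℝ => (x : ℂ) * w x) (v y) y := by
        have : DifferentiableAt ℝ (fun x : ℝ => (x : ℂ) * w x) y :=
          (hx.1.differentiable (by simp)).differentiableAt
        exact this.hasDerivAt
      have h2 : HasDerivAt (fun y : ℝ => u * Real.log y) (u * y⁻¹) y :=
        (Real.hasDerivAt_log hy0).const_mul u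
      have h3 : HasDerivAt (fun y : ℝ => (((u * Real.log y : ℝ)) : ℂ)) ((u * y⁻¹ : ℝ) : ℂ) y :=
        h2.ofReal_comp
      have h4 : HasDerivAt e (e y * (-(((u * y⁻¹ : ℝ) : ℂ) * I))) y :=
        ((h3.mul_const I).neg).cexp
      have h5 := h1.mul h4
      have h6 : v y * e y + (y : ℂ) * w y * (e y * (-(((u * y⁻¹ : ℝ) : ℂ) * I)))
          = v y * e y - (I * u) * (w y * e y) := by
        have hyc : (y : ℂ) ≠ 0 := by exact_mod_cast hy0
        push_cast
        field_simp
        ring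
      rw [← h6]
      exact h5
  have hi1 : Integrable (fun y => v y * e y) := IBZ_int v hiv u
  have hi2 : Integrable (fun y => (I * u) * (w y * e y)) := (IBZ_int w hiw u).const_mul _
  have h0 : ∫ y, (v y * e y - (I * u) * (w y * e y)) = 0 :=
    integral_eq_zero_of_hasDerivAt_of_integrable hder (hi1.sub hi2) (IBZ_int _ hix u)
  rw [integral_sub hi1 hi2, integral_const_mul, sub_eq_zero] at h0
  rw [h0, norm_mul, norm_mul, Complex.norm_I, one_mul, Complex.norm_real, Real.norm_eq_abs, mul_comm]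

theorem IBZ (h : SBO_stmt) : IBZ_stmt := by
  intro w hw j
  induction j generalizing w with
  | zero =>
    obtain ⟨-, -, -, hiw, -⟩ := h w hw
    refine ⟨∫ y, ‖w y‖, integral_nonneg (fun _ => norm_nonneg _), fun u => ?_⟩
    rw [pow_zero, mul_one]
    refine (norm_integral_le_integral_norm _).trans (le_of_eq ?_)
    refine integral_congr_ae (Filter.Eventually.of_forall (fun y => ?_))
    show ‖w y * Complex.exp (-(((u * Real.log y : ℝ) : ℂ) * I))‖ = ‖w y‖
    rw [norm_mul, IBZ_norm, mul_one]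
  | succ j ih =>
    have hx := (h w hw).2.1
    have hv := (h _ hx).1
    obtain ⟨C, hC, hCu⟩ := ih _ hv
    refine ⟨C, hC, fun u => ?_⟩
    rw [pow_succ, mul_comm (|u| ^ j), ← mul_assoc, IBZ_step h w hw u]
    exact hCu u

end Pool.Agent.ZD
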