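import Pool.Agent.helper90.ZD.SpecB

/-!
# Project zd, module BQF: the third moment of rho
-/

set_option autoImplicit false

open Complex MeasureTheory

namespace Pool.Agent.ZD

open Pool.Agent.helper84.DM Pool.Agent.helper78.ED Pool.Agent.DH

lemma BQF_card (δ T : ℝ) (W : Finset ℝ) (hδ : 0 < δ) (hT : 1 ≤ T) (hW : Sep δ T W) :
    (W.card : ℝ) ≤ 2 * T := by
  have hT0 : 0 ≤ T := by linarith
  have h1 : (1 : ℝ) ≤ T ^ δ := Real.one_le_rpow hT hδ.le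
  have h2 : W.card ≤ (Finset.range (⌊T⌋₊ + 1)).card := by
    refine Finset.card_le_card_of_injOn (fun t => ⌊t - T⌋₊) ?_ ?_
    · intro t ht
      have ht' := hW.1 t (Finset.mem_coe.mp ht)
      have : ⌊t - T⌋₊ ≤ ⌊T⌋₊ := Nat.floor_le_floor (by linarith [ht'.2])
      simp only [Finset.coe_range, Set.mem_Iio]
      omega
    · intro t ht t' ht' he
      by_contra hne
      have h3 := hW.2 t (Finset.mem_coe.mp ht) t' (Finset.mem_coe.mp ht') hne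
      have h4 := hW.1 t (Finset.mem_coe.mp ht)
      have h5 := hW.1 t' (Finset.mem_coe.mp ht')
      have a1 := Nat.floor_le (show 0 ≤ t - T by linarith [h4.1])
      have a2 := Nat.lt_floor_add_one (t - T)
      have a3 := Nat.floor_le (show 0 ≤ t' - T by linarith [h5.1])
      have a4 := Nat.lt_floor_add_one (t' - T)
      have he' : ((⌊t - T⌋₊ : ℕ) : ℝ) = ((⌊t' - T⌋₊ : ℕ) : ℝ) := by
        exact_mod_cast he
      have h6 : |t - t'| < 1 := by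
        rw [abs_lt]
        constructor <;> linarith
      linarith
  rw [Finset.card_range] at h2
  have h3 : (W.card : ℝ) ≤ (⌊T⌋₊ : ℝ) + 1 := by exact_mod_cast h2
  have h4 := Nat.floor_le hT0
  linarith

lemma BQF_norm (W : Finset ℝ) (x : ℝ) : ‖rho W x‖ ≤ (W.card : ℝ) := by
  unfold rho
  refine (norm_sum_le _ _).trans ?_
  have : ∀ t ∈ W, ‖Complex.exp (((t * x : ℝ) : ℂ) * I)‖ = 1 := fun t _ =>
    Complex.norm_exp_ofReal_mul_I _
  rw [Finset.sum_congr rfl this]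
  simp

lemma BQF_KQ (R N V S : ℝ) (hR : 0 ≤ R) (hN : 0 ≤ N) (hV : 0 ≤ V) (hS : 0 ≤ S) :
    0 ≤ KQ R N V S := by
  unfold KQ
  positivity

lemma BQF_S0 (δ T : ℝ) (W : Finset ℝ) (hT : 0 ≤ T) : 0 ≤ S0 δ T W := by
  unfold S0
  positivity

lemma BQF_WS (η D D' : ℝ) (J J' : Finset ℤ) (x : ℤ → ℝ) (h : WS η D J x) (hD : D ≤ D')
    (hJ : J' ⊆ J) : WS η D' J' x := by
  refine ⟨fun j hj => h.1 j (hJ hj), fun z => ?_⟩
  refine le_trans ?_ ((h.2 z).trans hD)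
  exact_mod_cast Finset.card_le_card (Finset.filter_subset_filter _ hJ)

lemma BQF_J (T : ℝ) (hT : 2 ≤ T) : ((Finset.Icc (-⌈5 * T⌉) ⌈5 * T⌉).card : ℝ) ≤ 13 * T := by
  have h0 : (0 : ℤ) ≤ ⌈5 * T⌉ := Int.ceil_nonneg (by linarith)
  have h1 : ((Finset.Icc (-⌈5 * T⌉) ⌈5 * T⌉).card : ℤ) = 2 * ⌈5 * T⌉ + 1 := by
    rw [Int.card_Icc, Int.toNat_of_nonneg (by omega)]
    ring
  have h2 : ((Finset.Icc (-⌈5 * T⌉) ⌈5 * T⌉).card : ℝ) = 2 * (⌈5 * T⌉ : ℝ) + 1 := by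
    exact_mod_cast h1
  rw [h2]
  have := Int.ceil_lt_add_one (5 * T)
  linarith

theorem BQF (h1 : BQS_stmt) (h2 : BQC_stmt) (h3 : BQD_stmt) : BQF_stmt := by
  intro ε δ hε hδ hδ'
  obtain ⟨C₁, T₁, hC₁, H1⟩ := h1 (ε / 2) δ (by linarith) hδ hδ'
  set C₂ : ℝ := 2 + 2 / (ε * Real.log 2) with hC₂
  have hl2 : 0 < Real.log 2 := Real.log_pos (by norm_num)
  have hC₂0 : 0 < C₂ := by positivity
  refine ⟨13 + 8 * C₁ * C₂, max T₁ 2, by positivity, ?_⟩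
  intro T hT W hW N₀ a A V₀ hN hN' hA hV ha hD hS
  have hT1 : T₁ ≤ T := le_trans (le_max_left _ _) hT
  have hT2 : 2 ≤ T := le_trans (le_max_right _ _) hT
  have hT0 : 0 < T := by linarith
  have hS0 : 0 ≤ S0 δ T W := BQF_S0 δ T W hT0.le
  have hK : 0 ≤ KQ (W.card : ℝ) ((N₀ : ℝ) ^ 2) (V₀ ^ 2) (S0 δ T W) :=
    BQF_KQ _ _ _ _ (by positivity) (by positivity) (by positivity) hS0
  rcases W.eq_empty_or_nonempty with hWe | hWn
  · have hq : q3 W = 0 := by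
      unfold q3
      rw [hWe]
      simp [rho]
    rw [hq]
    positivity
  · have hR1 : (1 : ℝ) ≤ (W.card : ℝ) := by exact_mod_cast hWn.card_pos
    obtain ⟨x, hx1, hx2, hx3⟩ := h2 T W hT2
    set J₀ := Finset.Icc (-⌈5 * T⌉) ⌈5 * T⌉ with hJ₀
    have hJc : (J₀.card : ℝ) ≤ 13 * T := BQF_J T hT2
    have hTδ : (1 : ℝ) ≤ T ^ δ := Real.one_le_rpow (by linarith) hδ.le
    have hTη : T * T ^ (δ - 1) = T ^ δ := by
      rw [Real.rpow_sub_one hT0.ne']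
      field_simp
    have hη : 1 / T ≤ T ^ (δ - 1) := by
      rw [Real.rpow_sub_one hT0.ne']
      gcongr
    have hWS0 : WS (T ^ (δ - 1)) (5 * T ^ δ) J₀ x := by
      refine BQF_WS _ _ _ J₀ J₀ x (hx3 _ hη) ?_ (Finset.Subset.refl _)
      have : 2 * T * T ^ (δ - 1) = 2 * T ^ δ := by rw [mul_assoc, hTη]
      rw [this]
      linarith
    set Y : ℝ := C₁ * A ^ 8 * T ^ (ε / 2 + 4 * δ) *
      (T * KQ (W.card : ℝ) ((N₀ : ℝ) ^ 2) (V₀ ^ 2) (S0 δ T W)) with hY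
    have hA0 : 0 < A := by linarith
    have hY0 : 0 ≤ Y := by
      rw [hY]
      positivity
    have hsum := h3 J₀ (fun j => ‖rho W (x j)‖) (W.card : ℝ) Y
      (fun j _ => ⟨norm_nonneg _, BQF_norm W _⟩) hR1 hY0 (by
        intro lam hlam
        refine H1 T hT1 W hW N₀ a A V₀ lam _ x hN hN' hA hV ha hD hS ?_ ?_ hlam ?_
        · exact BQF_WS _ _ _ J₀ _ x hWS0 le_rfl (Finset.filter_subset _ _)
        · refine le_trans (le_trans ?_ hJc) (by linarith)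
          exact_mod_cast Finset.card_le_card (Finset.filter_subset _ _)
        · intro j hj
          exact (Finset.mem_filter.mp hj).2.1)
    have hlog : Real.logb 2 (W.card : ℝ) + 1 ≤ C₂ * T ^ (ε / 2) := by
      have g1 : (W.card : ℝ) ≤ 2 * T := BQF_card δ T W hδ (by linarith) hW
      have g2 : Real.log (W.card : ℝ) ≤ Real.log (2 * T) :=
        Real.log_le_log (by linarith) g1
      rw [Real.log_mul (by norm_num) hT0.ne'] at g2
      have g3 : Real.log T ≤ T ^ (ε / 2) / (ε / 2) :=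
        Real.log_le_rpow_div hT0.le (by linarith)
      have g4 : (1 : ℝ) ≤ T ^ (ε / 2) := Real.one_le_rpow (by linarith) (by linarith)
      have g5 : Real.logb 2 (W.card : ℝ) ≤ (Real.log 2 + T ^ (ε / 2) / (ε / 2)) / Real.log 2 := by
        unfold Real.logb
        gcongr
        linarith
      have g6 : (Real.log 2 + T ^ (ε / 2) / (ε / 2)) / Real.log 2
          = 1 + 2 / (ε * Real.log 2) * T ^ (ε / 2) := by
        field_simp
      rw [g6] at g5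
      rw [hC₂, add_mul]
      linarith
    have hfin : q3 W ≤ 1 / T * (13 * T + 8 * (C₂ * T ^ (ε / 2)) * Y) := by
      refine hx2.trans ?_
      have : ∑ j ∈ J₀, ‖rho W (x j)‖ ^ 3 ≤ 13 * T + 8 * (C₂ * T ^ (ε / 2)) * Y := by
        refine hsum.trans ?_
        gcongr
      gcongr
    have hexp : T ^ (ε / 2) * T ^ (ε / 2 + 4 * δ) = T ^ (ε + 4 * δ) := by
      rw [← Real.rpow_add hT0]
      congr 1
      ring
    have heq : 1 / T * (13 * T + 8 * (C₂ * T ^ (ε / 2)) * Y)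
        = 13 + 8 * C₁ * C₂ * (A ^ 8 * T ^ (ε + 4 * δ) *
          KQ (W.card : ℝ) ((N₀ : ℝ) ^ 2) (V₀ ^ 2) (S0 δ T W)) := by
      rw [hY, ← hexp]
      field_simp
    rw [heq] at hfin
    have hAT : 1 ≤ A ^ 8 * T ^ (ε + 4 * δ) * (W.card : ℝ) ^ (3 / 2 : ℝ) := by
      have k1 : (1 : ℝ) ≤ A ^ 8 := one_le_pow₀ hA
      have k2 : (1 : ℝ) ≤ T ^ (ε + 4 * δ) := Real.one_le_rpow (by linarith) (by positivity)
      have k3 : (1 : ℝ) ≤ (W.card : ℝ) ^ (3 / 2 : ℝ) := Real.one_le_rpow hR1 (by norm_num)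
      exact one_le_mul_of_one_le_of_one_le (one_le_mul_of_one_le_of_one_le k1 k2) k3
    have hM : 0 ≤ A ^ 8 * T ^ (ε + 4 * δ) *
          KQ (W.card : ℝ) ((N₀ : ℝ) ^ 2) (V₀ ^ 2) (S0 δ T W) := by positivity
    have hgoal : (13 + 8 * C₁ * C₂) * A ^ 8 * T ^ (ε + 4 * δ) * ((W.card : ℝ) ^ (3 / 2 : ℝ) +
        KQ (W.card : ℝ) ((N₀ : ℝ) ^ 2) (V₀ ^ 2) (S0 δ T W))
        = (13 + 8 * C₁ * C₂) * (A ^ 8 * T ^ (ε + 4 * δ) * (W.card : ℝ) ^ (3 / 2 : ℝ)) +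
          (13 + 8 * C₁ * C₂) * (A ^ 8 * T ^ (ε + 4 * δ) *
          KQ (W.card : ℝ) ((N₀ : ℝ) ^ 2) (V₀ ^ 2) (S0 δ T W)) := by ring
    rw [hgoal]
    have hcc : 0 ≤ 8 * C₁ * C₂ := by positivity
    nlinarith [mul_nonneg hcc (sub_nonneg.mpr hAT)]

end Pool.Agent.ZD
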